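import Pool.Agent.Q318.PSI.Final

/-!
# A principal symmetric ideal with principal symmetric square and no invariant generator
(MP_e01960_al)
-/

namespace Pool.Agent.Results.MP_e01960_al.PsiSquare

open MvPolynomial

/-- The ideal generated by the orbit of `f`; here `(σ f)(x_1, ..., x_d) = f(x_{σ 1}, ..., x_{σ d})`
is `rename σ f`. -/
noncomputable def symIdeal {k : Type} [Field k] {d : ℕ} (f : MvPolynomial (Fin d) k) :
    Ideal (MvPolynomial (Fin d) k) :=
  Ideal.span (Set.range fun σ : Equiv.Perm (Fin d) => rename σ f)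

/-- Principal symmetric ideals. -/
def IsPsi {k : Type} [Field k] {d : ℕ} (I : Ideal (MvPolynomial (Fin d) k)) : Prop :=
  ∃ (f : MvPolynomial (Fin d) k) (n : ℕ), f.IsHomogeneous n ∧ I = symIdeal f

/-- `f` is `k`-invariant under the symmetric subgroup `S_A`. -/
def InvariantUnder {k : Type} [Field k] {d : ℕ} (A : Finset (Fin d))
    (f : MvPolynomial (Fin d) k) : Prop :=
  ∀ σ : Equiv.Perm (Fin d), (∀ i ∉ A, σ i = i) → ∃ c : k, rename σ f = c • f

/-- There is an ideal `I` of `ℂ[x_1, ..., x_7]` such that `I` and `I ^ 2` are principal symmetric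
ideals and no generator of `I` as a symmetric ideal is `ℂ`-invariant under a symmetric
subgroup. -/
theorem result : ∃ I : Ideal (MvPolynomial (Fin 7) ℂ), IsPsi I ∧ IsPsi (I ^ 2) ∧
    ¬ ∃ (f : MvPolynomial (Fin 7) ℂ) (A : Finset (Fin 7)), 2 ≤ A.card ∧ InvariantUnder A f ∧
      I = symIdeal f := by
  obtain ⟨I, ⟨f, n, hf, hIf⟩, ⟨h, m, hh, hIh⟩, hno⟩ := Q318.PSI.final
  refine ⟨I, ⟨f, n, hf, hIf⟩, ⟨h, m, hh, hIh⟩, ?_⟩
  rintro ⟨f', A, hA, hinv, hI⟩
  obtain ⟨i, hi, j, hj, hij⟩ := Finset.one_lt_card.1 hA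
  obtain ⟨c, hc⟩ := hinv (Equiv.swap i j) (fun l hl => Equiv.swap_apply_of_ne_of_ne
    (fun h => hl (h ▸ hi)) (fun h => hl (h ▸ hj)))
  exact hno f' hI i j c hij (by rw [hc, smul_eq_C_mul])

end Pool.Agent.Results.MP_e01960_al.PsiSquare
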